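import Pool.Agent.FU2.Stmts

set_option autoImplicit false

open Finset

namespace Pool.Agent.FU2.H69

open Pool.Agent.FUR Pool.Agent.FU2

lemma dv_int {N : ℕ} (f : BF N) (I : Finset (Fin N)) (x : Fin N → Bool) :
    ∃ z : ℤ, dv I (ind f) x = z := by
  refine ⟨∑ J ∈ I.powerset, (-1) ^ J.card * (if f (fS x J) then 1 else 0), ?_⟩
  unfold dv ind
  push_cast
  rfl

lemma one_le_dv_sq {N : ℕ} (f : BF N) (I : Finset (Fin N)) (x : Fin N → Bool)
    (h : dv I (ind f) x ≠ 0) : 1 ≤ dv I (ind f) x ^ 2 := by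
  obtain ⟨z, hz⟩ := dv_int f I x
  rw [hz] at h ⊢
  have hz0 : z ≠ 0 := by
    rintro rfl
    exact h (by norm_num)
  have h1 : 1 ≤ z ^ 2 := by
    have : 0 < z ^ 2 := by positivity
    omega
  exact_mod_cast h1

lemma choose_le_exp (m q : ℕ) (κ : ℝ) (hκ : 0 < κ) :
    (m.choose q : ℝ) ≤ Real.exp (2 * κ * m) / (2 * κ) ^ q := by
  have h1 : (m.choose q : ℝ) ≤ (m : ℝ) ^ q / (q.factorial : ℝ) := Nat.choose_le_pow_div q m
  have h2 : (2 * κ * m) ^ q / (q.factorial : ℝ) ≤ Real.exp (2 * κ * m) :=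
    Real.pow_div_factorial_le_exp (2 * κ * m) (by positivity) q
  rw [le_div_iff₀ (by positivity)]
  calc (m.choose q : ℝ) * (2 * κ) ^ q ≤ (m : ℝ) ^ q / (q.factorial : ℝ) * (2 * κ) ^ q :=
        mul_le_mul_of_nonneg_right h1 (by positivity)
    _ = (2 * κ * m) ^ q / (q.factorial : ℝ) := by rw [mul_pow]; ring
    _ ≤ _ := h2

theorem nqb (hPRS : PRSStmt) (hTAL : TALStmt) (hDRF : DRFStmt) : NQBStmt := by
  intro N q s f κ hLC hκ
  classical
  set P := powersetCard q (univ : Finset (Fin N)) with hP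
  have h2N : (0 : ℝ) < 2 ^ N := by positivity
  -- step 1
  have h1 : (Nq q f : ℝ) ≤ ∑ x : Fin N → Bool, ∑ I ∈ P, dv I (ind f) x ^ 2 := by
    unfold Nq
    push_cast
    refine Finset.sum_le_sum fun x _ => ?_
    rw [Finset.card_filter]
    push_cast
    refine Finset.sum_le_sum fun I _ => ?_
    split_ifs with h
    · exact one_le_dv_sq f I x h
    · positivity
  -- step 2
  have h2 : ∀ I ∈ P, ∑ x : Fin N → Bool, dv I (ind f) x ^ 2 =
      2 ^ N * ∑ S : Finset (Fin N), (if I ⊆ S then (2 ^ q) ^ 2 * fc (ind f) S ^ 2 else 0) := by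
    intro I hI
    have hIq : I.card = q := (Finset.mem_powersetCard.mp hI).2
    have h3 := (hPRS N (dv I (ind f))).1
    have h4 : ∑ x : Fin N → Bool, dv I (ind f) x ^ 2 =
        2 ^ N * ∑ S : Finset (Fin N), fc (dv I (ind f)) S ^ 2 := by
      rw [h3]; field_simp
    rw [h4]
    congr 1
    refine Finset.sum_congr rfl fun S _ => ?_
    rw [hDRF N I (ind f) S, hIq]
    split_ifs
    · ring
    · norm_num
  -- step 3
  have h3 : ∑ x : Fin N → Bool, ∑ I ∈ P, dv I (ind f) x ^ 2 =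
      2 ^ N * ∑ S : Finset (Fin N), (S.card.choose q : ℝ) * ((2 ^ q) ^ 2 * fc (ind f) S ^ 2) := by
    rw [Finset.sum_comm, Finset.sum_congr rfl h2, ← Finset.mul_sum, Finset.sum_comm]
    congr 1
    refine Finset.sum_congr rfl fun S _ => ?_
    rw [← Finset.sum_filter, Finset.sum_const, nsmul_eq_mul]
    congr 2
    have : P.filter (fun I => I ⊆ S) = powersetCard q S := by
      ext I
      simp only [hP, Finset.mem_filter, Finset.mem_powersetCard, Finset.subset_univ, true_and]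
      tauto
    rw [this, Finset.card_powersetCard]
  rw [h3] at h1
  refine h1.trans (mul_le_mul_of_nonneg_left ?_ h2N.le)
  -- step 4
  have h4 : ∑ S : Finset (Fin N), (S.card.choose q : ℝ) * ((2 ^ q) ^ 2 * fc (ind f) S ^ 2) ≤
      (2 / κ) ^ q * ∑ S : Finset (Fin N), Real.exp (2 * κ * S.card) * fc (ind f) S ^ 2 := by
    rw [Finset.mul_sum]
    refine Finset.sum_le_sum fun S _ => ?_
    have h5 := choose_le_exp S.card q κ hκ
    have h6 : Real.exp (2 * κ * S.card) / (2 * κ) ^ q * (2 ^ q) ^ 2 =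
        (2 / κ) ^ q * Real.exp (2 * κ * S.card) := by
      rw [div_pow, mul_pow]
      have : (0 : ℝ) < 2 ^ q := by positivity
      have : (0 : ℝ) < κ ^ q := by positivity
      field_simp
    calc (S.card.choose q : ℝ) * ((2 ^ q) ^ 2 * fc (ind f) S ^ 2)
        ≤ Real.exp (2 * κ * S.card) / (2 * κ) ^ q * ((2 ^ q) ^ 2 * fc (ind f) S ^ 2) :=
          mul_le_mul_of_nonneg_right h5 (by positivity)
      _ = (Real.exp (2 * κ * S.card) / (2 * κ) ^ q * (2 ^ q) ^ 2) * fc (ind f) S ^ 2 := by ring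
      _ = (2 / κ) ^ q * (Real.exp (2 * κ * S.card) * fc (ind f) S ^ 2) := by rw [h6]; ring
  refine h4.trans (mul_le_mul_of_nonneg_left (hTAL N f s κ hLC hκ) (by positivity))

end Pool.Agent.FU2.H69
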