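import Pool.Agent.FU2.Stmts

set_option autoImplicit false

open Finset

namespace Pool.Agent.FU2.H69

open Pool.Agent.FUR Pool.Agent.FU2

lemma fc_zero' {N : ℕ} (g : RF N) (hg : ∀ x, g x = 0) (S : Finset (Fin N)) : fc g S = 0 := by
  unfold fc
  have : ∑ x, g x * ch S x = 0 := Finset.sum_eq_zero fun x _ => by rw [hg x, zero_mul]
  rw [this, zero_div]

theorem dgr (hDRF : DRFStmt) : DGRStmt := by
  intro N q g K ρ H S hS
  have hsub : S ⊆ K := by
    intro i hi
    by_contra hK
    apply hS
    have h1 : ∀ x, dv {i} (fun x => g (ov K ρ x)) x = 0 := by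
      intro x
      simp only [dv]
      have h0 : ({i} : Finset (Fin N)).powerset = {∅, {i}} := by
        ext J
        simp [Finset.subset_singleton_iff]
      rw [h0, Finset.sum_pair (Finset.singleton_ne_empty i).symm]
      have h2 : ov K ρ (fS x ∅) = ov K ρ x := by
        funext v
        simp [ov, fS]
      have h3 : ov K ρ (fS x {i}) = ov K ρ x := by
        funext v
        by_cases hv : v ∈ K
        · have : v ≠ i := fun h => hK (h ▸ hv)
          simp [ov, fS, hv, this]
        · simp [ov, hv]
      rw [h2, h3]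
      simp
    have h4 := hDRF N {i} (fun x => g (ov K ρ x)) S
    rw [fc_zero' _ h1 S, if_pos (Finset.singleton_subset_iff.mpr hi)] at h4
    have h5 : (2 : ℝ) ^ ({i} : Finset (Fin N)).card ≠ 0 := by positivity
    rcases mul_eq_zero.mp h4.symm with h6 | h6
    · exact absurd h6 h5
    · exact h6
  refine ⟨hsub, ?_⟩
  by_contra hq
  push Not at hq
  obtain ⟨I, hIS, hIq⟩ := Finset.exists_subset_card_eq hq
  apply hS
  have h1 : ∀ x, dv I (fun x => g (ov K ρ x)) x = 0 := by
    intro x
    rw [← H x I (hIS.trans hsub) hIq]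
    simp only [dv]
    refine Finset.sum_congr rfl fun J hJ => ?_
    rw [Finset.mem_powerset] at hJ
    have h2 : ov K ρ (fS x J) = fS (ov K ρ x) J := by
      funext v
      by_cases hv : v ∈ K
      · by_cases hJv : v ∈ J
        · simp [ov, fS, hv, hJv]
        · simp [ov, fS, hv, hJv]
      · have hJv : v ∉ J := fun h => hv (hsub (hIS (hJ h)))
        simp [ov, fS, hv, hJv]
    rw [h2]
  have h4 := hDRF N I (fun x => g (ov K ρ x)) S
  rw [fc_zero' _ h1 S, if_pos hIS] at h4
  have h5 : (2 : ℝ) ^ I.card ≠ 0 := by positivity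
  rcases mul_eq_zero.mp h4.symm with h6 | h6
  · exact absurd h6 h5
  · exact h6

end Pool.Agent.FU2.H69
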