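import Pool.Agent.FU2.Stmts

set_option autoImplicit false

open Finset

namespace Pool.Agent.FU2.H69

open Pool.Agent.FUR Pool.Agent.FU2

/-- degree at most `a` -/
def Dg {N : ℕ} (a : ℕ) (g : RF N) : Prop := ∀ S : Finset (Fin N), fc g S ≠ 0 → S.card ≤ a

lemma fc_add' {N : ℕ} (g h : RF N) (S : Finset (Fin N)) :
    fc (fun x => g x + h x) S = fc g S + fc h S := by
  unfold fc
  rw [← add_div, ← Finset.sum_add_distrib]
  congr 1
  exact Finset.sum_congr rfl fun x _ => by ring

lemma fc_smul' {N : ℕ} (c : ℝ) (g : RF N) (S : Finset (Fin N)) :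
    fc (fun x => c * g x) S = c * fc g S := by
  unfold fc
  rw [← mul_div_assoc, Finset.mul_sum]
  congr 1
  exact Finset.sum_congr rfl fun x _ => by ring

lemma Dg.add {N a : ℕ} {g h : RF N} (hg : Dg a g) (hh : Dg a h) : Dg a (fun x => g x + h x) := by
  intro S hS
  rw [fc_add'] at hS
  by_contra hc
  have h1 : fc g S = 0 := by
    by_contra h; exact hc (hg S h)
  have h2 : fc h S = 0 := by
    by_contra h; exact hc (hh S h)
  exact hS (by rw [h1, h2, add_zero])

lemma Dg.smul {N a : ℕ} {g : RF N} (c : ℝ) (hg : Dg a g) : Dg a (fun x => c * g x) := by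
  intro S hS
  rw [fc_smul'] at hS
  exact hg S (right_ne_zero_of_mul hS)

lemma Dg.mono {N a b : ℕ} {g : RF N} (hab : a ≤ b) (hg : Dg a g) : Dg b g :=
  fun S hS => (hg S hS).trans hab

theorem dl2 (hDGR : DGRStmt) (hCNV : CNVStmt) (hPRK : PRKStmt) : DL2Stmt := by
  intro N k r M T0 T1 B K ρ hK hr hdv hall
  classical
  obtain ⟨c, hc, hpar⟩ := hPRK N K ρ
  -- the least index
  have hex : ∃ m : ℕ, ∃ hm : m < M, ∃ x, (if B ⟨m, hm⟩ (ov K ρ x) then T1 ⟨m, hm⟩ (ov K ρ x)
      else T0 ⟨m, hm⟩ (ov K ρ x)) = false := by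
    obtain ⟨j, hj, -, -⟩ := hall (ov K ρ fun _ => false)
    exact ⟨j.1, j.2, fun _ => false, hj⟩
  obtain ⟨hm, x₀, hx₀⟩ := Nat.find_spec hex
  set m := Nat.find hex with hmdef
  have hmin : ∀ (i : Fin M) x, (if B i (ov K ρ x) then T1 i (ov K ρ x)
      else T0 i (ov K ρ x)) = false → m ≤ i.1 := by
    intro i x hi
    exact Nat.find_min' hex ⟨i.2, x, hi⟩
  set j : Fin M := ⟨m, hm⟩ with hj
  -- degrees
  have hD1 : Dg 0 (fun _ : Fin N → Bool => (1 : ℝ)) := by
    intro S hS
    have := hDGR N 1 (fun _ => (1 : ℝ)) ∅ (fun _ => false) (by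
      intro x I hI hI1
      rw [Finset.subset_empty] at hI
      rw [hI] at hI1
      simp at hI1) S hS
    omega
  have hDb : Dg r (fun x => ind (B j) (ov K ρ x)) := by
    intro S hS
    have := (hDGR N (r + 1) (ind (B j)) K ρ (fun x I hI hI1 => (hdv j x I hI hI1).2.2) S hS).2
    omega
  have hDt1 : Dg r (fun x => ind (T1 j) (ov K ρ x)) := by
    intro S hS
    have := (hDGR N (r + 1) (ind (T1 j)) K ρ (fun x I hI hI1 => (hdv j x I hI hI1).2.1) S hS).2
    omega
  have hDt0 : Dg r (fun x => ind (T0 j) (ov K ρ x)) := by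
    intro S hS
    have := (hDGR N (r + 1) (ind (T0 j)) K ρ (fun x I hI hI1 => (hdv j x I hI hI1).1) S hS).2
    omega
  have hmul : ∀ {a b : ℕ} {g h : RF N}, Dg a g → Dg b h → Dg (a + b) (fun x => g x * h x) :=
    fun {a b g h} hg hh => hCNV N a b g h hg hh
  -- the function g
  set g : RF N := fun x => 1 + (-1) * (ind (B j) (ov K ρ x) * ind (T1 j) (ov K ρ x) +
    (1 + (-1) * ind (B j) (ov K ρ x)) * ind (T0 j) (ov K ρ x)) with hg
  have hDg : Dg (r + r) g := by
    have h1 : Dg (r + r) (fun x => ind (B j) (ov K ρ x) * ind (T1 j) (ov K ρ x)) := hmul hDb hDt1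
    have h2 : Dg r (fun x => 1 + (-1) * ind (B j) (ov K ρ x)) :=
      (hD1.mono (Nat.zero_le r)).add (hDb.smul (-1))
    have h3 : Dg (r + r) (fun x => (1 + (-1) * ind (B j) (ov K ρ x)) * ind (T0 j) (ov K ρ x)) :=
      hmul h2 hDt0
    exact (hD1.mono (Nat.zero_le (r + r))).add ((h1.add h3).smul (-1))
  have hgval : ∀ x, g x = if (if B j (ov K ρ x) then T1 j (ov K ρ x)
      else T0 j (ov K ρ x)) = false then 1 else 0 := by
    intro x
    simp only [hg, ind]
    cases B j (ov K ρ x) <;> cases T1 j (ov K ρ x) <;> cases T0 j (ov K ρ x) <;> norm_num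
  have hh : ∀ x, g x * (1 + (-2) * ind (B j) (ov K ρ x)) = g x * (c * ch K x) := by
    intro x
    by_cases hx : (if B j (ov K ρ x) then T1 j (ov K ρ x) else T0 j (ov K ρ x)) = false
    · obtain ⟨j', hj'1, hj'2, hj'3⟩ := hall (ov K ρ x)
      have h1 : m ≤ j'.1 := hmin j' x hj'1
      have h2 : j' = j := by
        by_contra hne
        have hlt : j < j' := by
          rw [Fin.lt_def]
          rcases lt_or_eq_of_le h1 with h | h
          · exact h
          · exact absurd (Fin.ext h.symm) hne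
        have h3 := hj'2 j hlt
        rw [hx] at h3
        exact Bool.false_ne_true h3
      rw [h2] at hj'3
      rw [← hpar x, ← hj'3]
      simp only [ind]
      cases B j (ov K ρ x) <;> norm_num
    · have h0 : g x = 0 := by rw [hgval x, if_neg hx]
      rw [h0, zero_mul, zero_mul]
  have hDh : Dg (r + r + r) (fun x => g x * (1 + (-2) * ind (B j) (ov K ρ x))) :=
    hmul hDg ((hD1.mono (Nat.zero_le r)).add (hDb.smul (-2)))
  have hfc : fc (fun x => g x * (1 + (-2) * ind (B j) (ov K ρ x))) K = c * ((∑ x, g x) / 2 ^ N) := by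
    unfold fc
    rw [← mul_div_assoc, Finset.mul_sum]
    congr 1
    refine Finset.sum_congr rfl fun x _ => ?_
    show g x * (1 + (-2) * ind (B j) (ov K ρ x)) * ch K x = c * g x
    rw [hh x]
    have h1 : ch K x * ch K x = 1 := by
      unfold ch
      rw [← Finset.prod_mul_distrib]
      refine Finset.prod_eq_one fun v _ => ?_
      split_ifs <;> norm_num
    calc g x * (c * ch K x) * ch K x = c * g x * (ch K x * ch K x) := by ring
      _ = c * g x := by rw [h1, mul_one]
  have hpos : 0 < ∑ x, g x := by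
    refine Finset.sum_pos' (fun x _ => ?_) ⟨x₀, Finset.mem_univ _, ?_⟩
    · rw [hgval x]; split_ifs <;> norm_num
    · rw [hgval x₀, if_pos hx₀]; norm_num
  have hne : fc (fun x => g x * (1 + (-2) * ind (B j) (ov K ρ x))) K ≠ 0 := by
    rw [hfc]
    have hc0 : c ≠ 0 := by
      intro h; rw [h] at hc; norm_num at hc
    have : (0 : ℝ) < 2 ^ N := by positivity
    exact mul_ne_zero hc0 (div_pos hpos this).ne'
  have := hDh K hne
  omega

end Pool.Agent.FU2.H69
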